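import Pool.Agent.helper23.F2.Spec

set_option autoImplicit false

open scoped BigOperators

namespace Pool.Agent.F2

open Pool.Agent.helper23.TH

open Classical

theorem STAR_pick {V L : Type} [Fintype V] {b s : ℕ} (G : LG V L b s) (v : V) (F : Finset L)
    (h : F.card * s < dg G.A Finset.univ v) :
    ∃ w, G.A v w ∧ Disjoint (G.lv w ∪ G.le v w) F := by
  by_contra hc
  push Not at hc
  have h1 : (Finset.univ.filter fun w => G.A v w) ⊆
      F.biUnion fun x => Finset.univ.filter fun w => G.A v w ∧ (x ∈ G.lv w ∨ x ∈ G.le v w) := by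
    intro w hw
    rw [Finset.mem_filter] at hw
    have h2 := hc w hw.2
    rw [Finset.not_disjoint_iff] at h2
    obtain ⟨x, hx1, hx2⟩ := h2
    rw [Finset.mem_biUnion]
    refine ⟨x, hx2, ?_⟩
    rw [Finset.mem_filter]
    exact ⟨Finset.mem_univ _, hw.2, Finset.mem_union.1 hx1⟩
  have h3 := Finset.card_le_card h1
  have h4 := Finset.card_biUnion_le_card_mul F
    (fun x => Finset.univ.filter fun w => G.A v w ∧ (x ∈ G.lv w ∨ x ∈ G.le v w)) s (fun x _ => by
      apply G.sp v x
      intro w hw
      exact (Finset.mem_filter.1 hw).2)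
  unfold dg at h
  omega

theorem STAR_greedy {V L : Type} [Fintype V] {b s : ℕ} (G : LG V L b s) (v : V) (n : ℕ) :
    b * (2 * n + 1) * s < dg G.A Finset.univ v →
    ∃ w : Fin n → V, (∀ i, G.A v (w i)) ∧ (∀ i, Disjoint (G.lv (w i) ∪ G.le v (w i)) (G.lv v)) ∧
      ∀ i j, i ≠ j → Disjoint (G.lv (w i) ∪ G.le v (w i)) (G.lv (w j) ∪ G.le v (w j)) := by
  induction n with
  | zero =>
    intro _
    exact ⟨fun i => i.elim0, fun i => i.elim0, fun i => i.elim0, fun i => i.elim0⟩
  | succ n ih =>
    intro h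
    have h0 : b * (2 * n + 1) * s ≤ b * (2 * (n + 1) + 1) * s :=
      Nat.mul_le_mul_right _ (Nat.mul_le_mul_left _ (by omega))
    obtain ⟨w, hw1, hw2, hw3⟩ := ih (by omega)
    have h1 : (G.lv v ∪ Finset.univ.biUnion fun i : Fin n => G.lv (w i) ∪ G.le v (w i)).card ≤
        b * (2 * n + 1) := by
      have h2 := Finset.card_union_le (G.lv v)
        (Finset.univ.biUnion fun i : Fin n => G.lv (w i) ∪ G.le v (w i))
      have h3 := Finset.card_biUnion_le_card_mul (Finset.univ : Finset (Fin n))
        (fun i : Fin n => G.lv (w i) ∪ G.le v (w i)) (2 * b) (fun i _ => by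
          have h4 := Finset.card_union_le (G.lv (w i)) (G.le v (w i))
          have h5 := G.bv (w i)
          have h6 := G.be v (w i)
          omega)
      have h7 := G.bv v
      rw [Finset.card_univ, Fintype.card_fin] at h3
      have h8 : b * (2 * n + 1) = b + n * (2 * b) := by ring
      omega
    obtain ⟨u, hu1, hu2⟩ := STAR_pick G v
      (G.lv v ∪ Finset.univ.biUnion fun i : Fin n => G.lv (w i) ∪ G.le v (w i))
      (lt_of_le_of_lt ((Nat.mul_le_mul_right s h1).trans h0) h)
    rw [Finset.disjoint_union_right] at hu2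
    have hu3 : ∀ i, Disjoint (G.lv u ∪ G.le v u) (G.lv (w i) ∪ G.le v (w i)) := by
      intro i
      have h9 := hu2.2
      rw [Finset.disjoint_biUnion_right] at h9
      exact h9 i (Finset.mem_univ i)
    refine ⟨Fin.cons u w, ?_, ?_, ?_⟩
    · intro i
      refine Fin.cases ?_ (fun i => ?_) i
      · simpa using hu1
      · simpa using hw1 i
    · intro i
      refine Fin.cases ?_ (fun i => ?_) i
      · simpa using hu2.1
      · simpa using hw2 i
    · intro i j
      refine Fin.cases ?_ (fun i => ?_) i <;> refine Fin.cases ?_ (fun j => ?_) j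
      · intro h; exact absurd rfl h
      · intro _
        simpa only [Fin.cons_zero, Fin.cons_succ] using hu3 j
      · intro _
        simpa only [Fin.cons_zero, Fin.cons_succ] using (hu3 i).symm
      · intro h
        simpa only [Fin.cons_succ] using hw3 i j (fun h' => h (by rw [h']))

theorem STAR_copy {V L : Type} [Fintype V] {b s : ℕ} (G : LG V L b s) (hT : G.Tdy) (v : V) (p : ℕ)
    (h : b * (2 * p + 1) * s < dg G.A Finset.univ v) : G.CF (starT.pwH p) := by
  obtain ⟨w, hw1, hw2, hw3⟩ := STAR_greedy G v p h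
  have e1 : ∀ i j, i ≠ j → Disjoint (G.lv (w i)) (G.lv (w j)) := fun i j hij =>
    (Finset.disjoint_union_left.1 (Finset.disjoint_union_right.1 (hw3 i j hij)).1).1
  have e2 : ∀ i j, i ≠ j → Disjoint (G.le v (w i)) (G.lv (w j)) := fun i j hij =>
    (Finset.disjoint_union_left.1 (Finset.disjoint_union_right.1 (hw3 i j hij)).1).2
  have e3 : ∀ i j, i ≠ j → Disjoint (G.le v (w i)) (G.le v (w j)) := fun i j hij =>
    (Finset.disjoint_union_left.1 (Finset.disjoint_union_right.1 (hw3 i j hij)).2).2
  have e4 : ∀ i, Disjoint (G.lv (w i)) (G.lv v) := fun i => (Finset.disjoint_union_left.1 (hw2 i)).1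
  have e5 : ∀ i, Disjoint (G.le v (w i)) (G.lv v) := fun i => (Finset.disjoint_union_left.1 (hw2 i)).2
  have e6 : ∀ i, Disjoint (G.le v (w i)) (G.lv (w i)) := fun i => hT v (w i) (hw1 i)
  have e7 : ∀ i j, Disjoint (G.le v (w i)) (G.lv (w j)) := by
    intro i j
    by_cases hij : i = j
    · rw [hij]; exact e6 j
    · exact e2 i j hij
  let φ : (starT.pwH p).W → V := fun x => match x with
    | .inl _ => v
    | .inr y => w y.1
  refine ⟨φ, ⟨?_, ?_⟩, ?_⟩
  · rintro ⟨j, e⟩
    exact hw1 j
  · rintro ((x | ⟨i, x⟩) | ⟨i, x⟩) ((y | ⟨j, y⟩) | ⟨j, y⟩) hne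
    · exact absurd rfl hne
    · exact (e4 j).symm
    · exact (e5 j).symm
    · exact e4 i
    · exact e1 i j (fun hh => hne (by subst hh; rfl))
    · exact (e7 j i).symm
    · exact e5 i
    · exact e7 i j
    · exact e3 i j (fun hh => hne (by subst hh; rfl))
  · cases hc : G.c v
    · left
      rintro (x | ⟨j, x⟩)
      · exact hc
      · have h1 := G.bip v (w j) (hw1 j)
        have h2 : G.c (w j) = true := by
          cases h3 : G.c (w j)
          · exact absurd (hc.trans h3.symm) h1
          · rfl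
        exact h2
    · right
      rintro (x | ⟨j, x⟩)
      · exact hc
      · have h1 := G.bip v (w j) (hw1 j)
        have h2 : G.c (w j) = false := by
          cases h3 : G.c (w j)
          · rfl
          · exact absurd (hc.trans h3.symm) h1
        exact h2

theorem STAR (hCL1 : CL1_stmt) : STAR_stmt := by
  intro p b s
  refine ⟨2 * (b * s) + b * (2 * p + 1) * s + 1, by positivity, ?_⟩
  intro V L _ _ G hV hsum
  obtain ⟨G', hT, hG', hCF⟩ := hCL1 V L b s G
  refine (hCF _).2 ?_
  have hVr : (0 : ℝ) < Fintype.card V := by exact_mod_cast hV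
  rw [add_zero, Real.rpow_one] at hsum
  have h1 : (b * (2 * p + 1) * s + 1 : ℝ) * Fintype.card V ≤ ∑ v, (dg G'.A Finset.univ v : ℝ) := by
    nlinarith
  have h2 : ∃ v, b * (2 * p + 1) * s < dg G'.A Finset.univ v := by
    by_contra hc
    push Not at hc
    have h3 : ∑ v, (dg G'.A Finset.univ v : ℝ) ≤ ∑ _v : V, (b * (2 * p + 1) * s : ℝ) := by
      apply Finset.sum_le_sum
      intro v _
      exact_mod_cast hc v
    rw [Finset.sum_const, Finset.card_univ, nsmul_eq_mul] at h3
    nlinarith
  obtain ⟨v, hv⟩ := h2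
  exact STAR_copy G' hT v p hv

end Pool.Agent.F2
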